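import Pool.Agent.TH486.LAC.Pairs

set_option autoImplicit false

/-!
# Linear arboricity of Cayley graphs whose generators come in commuting pairs

`H931R3.LA.la G` is the linear arboricity (the same expression as in the frozen statement S07085).
-/

namespace Pool.Agent.Results.MP_0a041d_co.CommutingGenerators

open SimpleGraph H931R3.LA Pool.Agent.W111.LAR Pool.Agent.TH486.LAC

/-- The linear arboricity conjecture for the Cayley graph of a finite group with connection set
`T ∪ T⁻¹`, where `T` contains no element together with its inverse, if `T` has an involution `τ`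
such that `s` and `τ s` commute and have the same order and `∑_{s ∈ T} 2 / |⟨s, τ s⟩| ≤ 1`. -/
theorem result :
    ∀ (Γ : Type) [Group Γ] [Finite Γ] (T : Finset Γ) (G : SimpleGraph Γ) (τ : Γ → Γ),
      (∀ g h, G.Adj g h ↔ g⁻¹ * h ∈ T ∨ h⁻¹ * g ∈ T) → T.Nonempty → (∀ s ∈ T, s⁻¹ ∉ T) →
      (∀ s ∈ T, τ s ∈ T ∧ τ (τ s) = s ∧ s * τ s = τ s * s ∧ orderOf (τ s) = orderOf s) →
      ∑ s ∈ T, (2 : ℝ) / Nat.card (Subgroup.closure {s, τ s} : Subgroup Γ) ≤ 1 →
      (∀ g, (G.neighborSet g).ncard = 2 * T.card) ∧ la G = (2 * T.card + 2) / 2 := by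
  intro Γ _ _ T G τ hG hT hinv hτ hsum
  have h1 : (1 : Γ) ∉ T := fun h => hinv 1 h (by rwa [inv_one])
  have hdeg := deg_half T hinv G hG
  refine ⟨hdeg, la_eq_of_cov (by have := hT.card_pos; omega) hdeg ?_⟩
  have h2 : (2 * T.card + 2) / 2 = T.card + 1 := by omega
  rw [h2]
  exact cov_pairs T τ h1 (fun s hs => ⟨(hτ s hs).1, (hτ s hs).2.1, (hτ s hs).2.2.1,
    (hτ s hs).2.2.2.symm⟩) hsum G hG

end Pool.Agent.Results.MP_0a041d_co.CommutingGenerators
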